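import Pool.Agent.W558.WD.Stms

set_option autoImplicit false

/-!
WILD-F1: the blowup of a point on one component, at a point on the new component only.
-/

universe u

namespace Pool.Agent.W193.WD.F1

open Pool.Agent.W558

section

variable {k E : Type u} [Field k] [Field E] [Algebra k E] {O O' : Subalgebra k E} {x y : E}

lemma Ox_zero {z : E} (hz : z ∈ O) : Ox O x y 0 z :=
  ⟨0, O.zero_mem, z, hz, by rw [zero_mul, zero_add, pow_zero, mul_one]⟩

lemma Ox_mono (hy : y ∈ O) {i j : ℕ} (hij : i ≤ j) {z : E} (h : Ox O x y j z) :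
    Ox O x y i z := by
  obtain ⟨α, hα, β, hβ, rfl⟩ := h
  refine ⟨α, hα, β * y ^ (j - i), O.mul_mem hβ (O.pow_mem hy _), ?_⟩
  rw [mul_assoc β, ← pow_add, Nat.sub_add_cancel hij]

lemma Ox_add {j : ℕ} {z w : E} (hz : Ox O x y j z) (hw : Ox O x y j w) : Ox O x y j (z + w) := by
  obtain ⟨α, hα, β, hβ, rfl⟩ := hz
  obtain ⟨α', hα', β', hβ', rfl⟩ := hw
  exact ⟨α + α', O.add_mem hα hα', β + β', O.add_mem hβ hβ', by ring⟩

lemma Ox_mul {j : ℕ} {a z : E} (ha : a ∈ O) (hz : Ox O x y j z) : Ox O x y j (a * z) := by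
  obtain ⟨α, hα, β, hβ, rfl⟩ := hz
  exact ⟨a * α, O.mul_mem ha hα, a * β, O.mul_mem ha hβ, by ring⟩

lemma Ox_nu (hloc : ∀ a b, NU O a → NU O b → NU O (a + b)) (hx : NU O x) (hy : NU O y) {j : ℕ}
    (hj : 1 ≤ j) {z : E} (hz : Ox O x y j z) : NU O z := by
  obtain ⟨α, hα, β, hβ, rfl⟩ := hz
  refine hloc _ _ (hx.mul_left hα) ?_
  obtain ⟨i, rfl⟩ : ∃ i, j = i + 1 := ⟨j - 1, by omega⟩
  rw [pow_succ, ← mul_assoc]
  exact hy.mul_left (O.mul_mem hβ (O.pow_mem hy.1 i))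

lemma sum_eq (hx : x ≠ 0) (c : ℕ → E) (l : ℕ) :
    ∑ j ∈ Finset.range (l + 1), c j * x ^ (l - j) * y ^ j =
      x ^ l * ∑ j ∈ Finset.range (l + 1), c j * (y / x) ^ j := by
  rw [Finset.mul_sum]
  refine Finset.sum_congr rfl fun j hj => ?_
  have hj' : j ≤ l := by have := Finset.mem_range.1 hj; omega
  have h1 : x ^ l = x ^ (l - j) * x ^ j := by rw [← pow_add, Nat.sub_add_cancel hj']
  rw [h1, div_pow]
  field_simp

lemma Md_zero (l : ℕ) : Md O x y l 0 := ⟨fun _ => 0, fun _ => O.zero_mem, by simp⟩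

lemma Md_mul_y {l : ℕ} {z : E} (h : Md O x y l z) : Md O x y (l + 1) (y * z) := by
  obtain ⟨c, hc, rfl⟩ := h
  refine ⟨fun j => if j = 0 then 0 else c (j - 1), fun j => ?_, ?_⟩
  · by_cases hj : j = 0
    · simp only [hj, if_true]; exact O.zero_mem
    · simp only [hj, if_false]; exact hc _
  · rw [Finset.sum_range_succ' _ (l + 1), Finset.mul_sum]
    simp only [if_true, zero_mul, add_zero, Nat.succ_ne_zero, if_false, Nat.add_sub_cancel]
    refine Finset.sum_congr rfl fun j _ => ?_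
    rw [Nat.add_sub_add_right]
    ring

lemma Md_div (hQ : Quad O x O') (hy : NU O y) {l : ℕ} {z : E} (h : Md O x y l z) :
    z / x ^ l ∈ O' := by
  obtain ⟨c, hc, rfl⟩ := h
  rw [sum_eq hQ.e0, mul_div_cancel_left₀ _ (pow_ne_zero _ hQ.e0)]
  refine O'.sum_mem fun j _ => O'.mul_mem (hQ.le (hc j)) (O'.pow_mem ?_ _)
  rw [div_eq_mul_inv]
  exact hQ.div y hy

/-- existence of the invariant -/
lemma exists_dat {f y' : E} {M : ℤ} {ρ : ℕ}
    (h1 : ∀ θ ∈ Th O' (uo O' x), θ f * x ^ (-M) ∈ O')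
    (h2 : ∃ θ ∈ Th O' (uo O' x), ¬ Ox O' x y' (ρ + 1) (θ f * x ^ (-M))) :
    ∃ c, c ≤ ρ ∧ Dat O' x y' f M c := by
  classical
  have hex : ∃ n, ∃ θ ∈ Th O' (uo O' x), ¬ Ox O' x y' n (θ f * x ^ (-M)) := ⟨ρ + 1, h2⟩
  have hspec := Nat.find_spec hex
  have hle := Nat.find_min' hex h2
  have h0 : Nat.find hex ≠ 0 := by
    intro h0
    rw [h0] at hspec
    obtain ⟨θ, hθ, h⟩ := hspec
    exact h (Ox_zero (h1 θ hθ))
  refine ⟨Nat.find hex - 1, by omega, ?_, ?_⟩
  · intro θ hθ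
    by_contra hcon
    exact Nat.find_min hex (m := Nat.find hex - 1) (by omega) ⟨θ, hθ, hcon⟩
  · rw [Nat.sub_add_cancel (by omega)]
    exact hspec

end

theorem main (hder : WD_der.{u}) (hthb : WD_thb.{u}) (hod : WD_od.{u}) (hqp : WD_qp.{u})
    (hinv : WD_inv.{u}) : WD_f1.{u} := by
  intro k E _ _ _ _ htr O O' x y y' f m m' c c' hO hO' hP hQ hP' hD hc hD'
  obtain ⟨D1, D2, hD1, hD2, hD1x, hD1y, hD2x, hD2y, hbas⟩ := hder k E htr O x y hO hP
  obtain ⟨hth, -, hthO'⟩ := hthb k E htr O x y D1 D2 hO hP hD1 hD2 hD1x hD1y hD2x hD2y hbas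
  obtain ⟨hthQ, -, -⟩ := hthO' O' hO'
  have hth' := hthQ hQ
  obtain ⟨hod1, hod2, hod3, hod4, hod5⟩ := hod k E htr O x y hO hP
  obtain ⟨A, hA, hpt⟩ := hO
  have hOloc := hpt.loc
  have hx0 : x ≠ 0 := hP.u0
  have hxO : x ∈ O := hP.pu.1
  have hyO : y ∈ O := hP.pv.1
  have hxm : x ^ m ≠ 0 := zpow_ne_zero _ hx0
  have hxx : x ^ (-m) * x ^ m = 1 := by rw [← zpow_add₀ hx0]; simp
  set Ft : E := x * D1 f * x ^ (-m) with hFt
  set Gt : E := D2 f * x ^ (-m) with hGt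
  have hval : ∀ α β : E, (α • (x • D1) + β • D2 : Derivation k E E) f * x ^ (-m) =
      α * Ft + β * Gt := by
    intro α β
    simp only [Derivation.add_apply, Derivation.smul_apply, smul_eq_mul, hFt, hGt]
    ring
  have hFθ : (x • D1 : Derivation k E E) ∈ Th O (uo O x) :=
    (hth _).2 ⟨1, O.one_mem, 0, O.zero_mem, by simp⟩
  have hGθ : (D2 : Derivation k E E) ∈ Th O (uo O x) :=
    (hth _).2 ⟨0, O.zero_mem, 1, O.one_mem, by simp⟩
  have hFc : Ox O x y c Ft := by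
    have := hD.1 _ hFθ
    simpa only [Derivation.smul_apply, smul_eq_mul] using this
  have hGc : Ox O x y c Gt := hD.1 _ hGθ
  have hFm : NU O Ft := Ox_nu hOloc hP.pu hP.pv hc hFc
  have hGm : NU O Gt := Ox_nu hOloc hP.pu hP.pv hc hGc
  have hnot : ¬ (Ox O x y (c + 1) Ft ∧ Ox O x y (c + 1) Gt) := by
    rintro ⟨h1, h2⟩
    obtain ⟨θ, hθ, h3⟩ := hD.2
    obtain ⟨α, hα, β, hβ, rfl⟩ := (hth θ).1 hθ
    apply h3
    rw [hval]
    exact Ox_add (Ox_mul hα h1) (Ox_mul hβ h2)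
  -- the derivations at the point of the blowup
  have hxmF : x * D1 f = x ^ m * Ft := by
    have h1 : x ^ m * Ft = x * D1 f * (x ^ (-m) * x ^ m) := by rw [hFt]; ring
    rw [h1, hxx, mul_one]
  have hxmG : D2 f = x ^ m * Gt := by
    have h1 : x ^ m * Gt = D2 f * (x ^ (-m) * x ^ m) := by rw [hGt]; ring
    rw [h1, hxx, mul_one]
  have hval' : ∀ (ρ : ℕ) (α β : E),
      (α • (x • D1 + y • D2) + β • (x • D2) : Derivation k E E) f * x ^ (-(m + ρ)) =
      α * ((Ft + y * Gt) / x ^ ρ) + β * (x * (Gt / x ^ ρ)) := by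
    intro ρ α β
    have h1 : x ^ (-(m + (ρ : ℤ))) = x ^ (-m) * (x ^ ρ)⁻¹ := by
      rw [neg_add, zpow_add₀ hx0, zpow_neg x (ρ : ℤ), zpow_natCast]
    simp only [Derivation.add_apply, Derivation.smul_apply, smul_eq_mul]
    rw [h1, hxmG, hxmF]
    have h2 : x ^ m * x ^ (-m) = 1 := by rw [mul_comm]; exact hxx
    have h3 : (α * (x ^ m * Ft + y * (x ^ m * Gt)) + β * (x * (x ^ m * Gt))) *
        (x ^ (-m) * (x ^ ρ)⁻¹) = (x ^ m * x ^ (-m)) * ((α * (Ft + y * Gt) + β * (x * Gt)) *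
          (x ^ ρ)⁻¹) := by ring
    rw [h3, h2, one_mul, div_eq_mul_inv, div_eq_mul_inv]
    ring
  have hθ1 : (x • D1 + y • D2 : Derivation k E E) ∈ Th O' (uo O' x) :=
    (hth' _).2 ⟨1, O'.one_mem, 0, O'.zero_mem, by simp⟩
  have hθ2 : (x • D2 : Derivation k E E) ∈ Th O' (uo O' x) :=
    (hth' _).2 ⟨0, O'.zero_mem, 1, O'.one_mem, by simp⟩
  have hv1 : ∀ ρ : ℕ, (x • D1 + y • D2 : Derivation k E E) f * x ^ (-(m + ρ)) =
      (Ft + y * Gt) / x ^ ρ := by
    intro ρ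
    have := hval' ρ 1 0
    rwa [one_smul, zero_smul, add_zero, one_mul, zero_mul, add_zero] at this
  have hv2 : ∀ ρ : ℕ, (x • D2 : Derivation k E E) f * x ^ (-(m + ρ)) = x * (Gt / x ^ ρ) := by
    intro ρ
    have := hval' ρ 0 1
    rwa [one_smul, zero_smul, zero_add, one_mul, zero_mul, zero_add] at this
  have hxO' : x ∈ O' := hP'.pu.1
  -- the two cases
  have hcases : (∃ ρ, Od O x y ρ Ft ∧ Md O x y ρ Gt) ∨
      (∃ ρ, Od O x y ρ Gt ∧ Md O x y (ρ + 1) Ft) := by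
    by_cases hF0 : Ft = 0
    · by_cases hG0 : Gt = 0
      · exfalso
        apply hnot
        rw [hF0, hG0]
        have : Ox O x y (c + 1) 0 := ⟨0, O.zero_mem, 0, O.zero_mem, by simp⟩
        exact ⟨this, this⟩
      · obtain ⟨l, hl⟩ := hod1 Gt hGm.1 hG0
        exact Or.inr ⟨l, hl, hF0 ▸ Md_zero _⟩
    · obtain ⟨l, hl⟩ := hod1 Ft hFm.1 hF0
      by_cases hG0 : Gt = 0
      · exact Or.inl ⟨l, hl, hG0 ▸ Md_zero _⟩
      · obtain ⟨l', hl'⟩ := hod1 Gt hGm.1 hG0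
        rcases le_or_gt l l' with h | h
        · exact Or.inl ⟨l, hl, hod3 _ _ _ (hod2 _ _ hl') h⟩
        · exact Or.inr ⟨l', hl', hod3 _ _ _ (hod2 _ _ hl) h⟩
  rcases hcases with ⟨ρ, hF, hG⟩ | ⟨ρ, hG, hF⟩
  · -- case A
    have hOd : Od O x y ρ (Ft + y * Gt) := hod5 _ _ _ hF (Md_mul_y hG)
    have hMd : Md O x y ρ (Ft + y * Gt) := hod2 _ _ hOd
    have hmem : ∀ θ ∈ Th O' (uo O' x), θ f * x ^ (-(m + ρ)) ∈ O' := by
      intro θ hθ
      obtain ⟨α, hα, β, hβ, rfl⟩ := (hth' θ).1 hθ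
      rw [hval']
      exact O'.add_mem (O'.mul_mem hα (Md_div hQ hP.pv hMd))
        (O'.mul_mem hβ (O'.mul_mem hxO' (Md_div hQ hP.pv hG)))
    obtain ⟨cc, hcc, hcj, hceq⟩ := hOd
    have hnotO : ¬ Ox O' x y' (ρ + 1) ((Ft + y * Gt) / x ^ ρ) := by
      rw [hceq, sum_eq hx0, mul_div_cancel_left₀ _ (pow_ne_zero _ hx0)]
      exact hqp k E htr O O' x y y' ⟨A, hA, hpt⟩ hO' hP hQ hP' ρ cc hcc hcj
    obtain ⟨c'', hc'', hdat⟩ := exists_dat hmem ⟨_, hθ1, by rw [hv1]; exact hnotO⟩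
    obtain ⟨hmm, hcc'⟩ := (hinv k E htr O' x y' f hO' hP').1 _ _ _ _ hdat hD'
    subst hcc'
    have hρc : ρ ≤ c := by
      by_contra hcon
      push Not at hcon
      exact hnot ⟨(hod4 _ _ _ (hod2 _ _ hF) hcon).1, (hod4 _ _ _ hG hcon).1⟩
    refine ⟨hc''.trans hρc, fun h1 => ?_⟩
    by_contra hcon
    have hρ2 : ρ < 2 := by omega
    rcases Nat.lt_or_ge ρ 1 with hρ0 | hρ1
    · -- `ρ = 0`
      have : ρ = 0 := by omega
      omega
    · have hρ : ρ = 1 := by omega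
      subst hρ
      obtain ⟨b, hb, hbj, hbeq⟩ := hF
      have hFt2 : Ft = b 0 * x + b 1 * y := by
        rw [hbeq, Finset.sum_range_succ, Finset.sum_range_succ, Finset.sum_range_zero]
        simp
      -- the derivations commute
      have hcomm : D2 (D1 f) = D1 (D2 f) := by
        have h2 := hbas ⁅D1, D2⁆
        have h3 : ⁅D1, D2⁆ x = 0 := by
          rw [Derivation.commutator_apply, hD2x, hD1x, map_zero, D2.map_one_eq_zero, sub_zero]
        have h4 : ⁅D1, D2⁆ y = 0 := by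
          rw [Derivation.commutator_apply, hD2y, hD1y, map_zero, D1.map_one_eq_zero, sub_zero]
        rw [h3, h4, zero_smul, zero_smul, add_zero] at h2
        have h5 := congrArg (fun D : Derivation k E E => D f) h2
        simp only [Derivation.commutator_apply, Derivation.coe_zero, Pi.zero_apply] at h5
        exact (sub_eq_zero.1 h5).symm
      have hΔF : D2 Ft = m * Gt + x * D1 Gt := by
        have h2 : D2 (x ^ (-m)) = 0 := by
          rw [Derivation.leibniz_zpow, hD2x, smul_zero, smul_zero]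
        have h3 : D2 Ft = x * x ^ (-m) * D2 (D1 f) := by
          rw [hFt, D2.leibniz, D2.leibniz, h2, hD2x]
          simp only [smul_eq_mul]
          ring
        have h4 : D1 (D2 f) = x ^ m * D1 Gt + Gt * (m * x ^ (m - 1)) := by
          rw [hxmG, D1.leibniz, Derivation.leibniz_zpow, hD1x]
          simp only [smul_eq_mul, zsmul_eq_mul]
          ring
        rw [h3, hcomm, h4]
        have h5 : x * x ^ (m - 1) = x ^ m := by
          rw [mul_comm, ← zpow_add_one₀ hx0, sub_add_cancel]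
        have h6 : x * x ^ (-m) * (x ^ m * D1 Gt + Gt * (m * x ^ (m - 1))) =
            x * (x ^ (-m) * x ^ m) * D1 Gt + m * Gt * (x ^ (-m) * (x * x ^ (m - 1))) := by ring
        rw [h6, h5, hxx]
        ring
      have hb1 : NU O (b 1) := by
        have h2 : D2 Ft = D2 (b 0) * x + D2 (b 1) * y + b 1 := by
          rw [hFt2, map_add, D2.leibniz, D2.leibniz, hD2x, hD2y]
          simp only [smul_eq_mul]
          ring
        have h3 : NU O (D2 Ft) := by
          rw [hΔF]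
          refine hOloc _ _ (hGm.mul_left (O.intCast_mem m)) (hP.pu.mul_right (hD1 _ hGm.1))
        have h4 : b 1 = D2 Ft + -(D2 (b 0) * x + D2 (b 1) * y) := by rw [h2]; ring
        rw [h4]
        exact hOloc _ _ h3 (hOloc _ _ (hP.pu.mul_left (hD2 _ (hb 0)))
          (hP.pv.mul_left (hD2 _ (hb 1)))).neg
      have hb0 : ¬ NU O (b 0) := by
        obtain ⟨j, hj, hj2⟩ := hbj
        rcases Nat.lt_or_ge j 1 with h2 | h2
        · have : j = 0 := by omega
          rwa [this] at hj2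
        · have : j = 1 := by omega
          rw [this] at hj2
          exact absurd hb1 hj2
      -- `α'` is a unit
      have hτ : y / x ∈ O' := by rw [div_eq_mul_inv]; exact hQ.div y hP.pv
      have hα : (Ft + y * Gt) / x ^ 1 = b 0 + (b 1 * (y / x) + Gt * (y / x)) := by
        rw [hFt2, pow_one]
        field_simp
        ring
      have hN : NU O' (b 1 * (y / x) + Gt * (y / x)) :=
        hQ.loc _ _ ((hQ.nu _ hb1).mul_right hτ) ((hQ.nu _ hGm).mul_right hτ)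
      have hNU : NU O' ((Ft + y * Gt) / x ^ 1) := by
        have h2 := hD'.1 _ hθ1
        rw [← hmm, hv1 1] at h2
        exact Ox_nu hQ.loc hP'.pu hP'.pv h1 h2
      rw [hα] at hNU
      have h5 : NU O' (b 0) := by
        have h6 : b 0 = (b 0 + (b 1 * (y / x) + Gt * (y / x))) +
            -(b 1 * (y / x) + Gt * (y / x)) := by ring
        rw [h6]
        exact hQ.loc _ _ hNU hN.neg
      rw [not_NU_iff (hb 0)] at hb0
      exact not_NU_of_inv hb0.1 (hQ.le hb0.2) h5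
  · -- case B
    have hMG : Md O x y ρ Gt := hod2 _ _ hG
    have hmem1 : (Ft + y * Gt) / x ^ (ρ + 1) ∈ O' := by
      rw [add_div]
      exact O'.add_mem (Md_div hQ hP.pv hF) (Md_div hQ hP.pv (Md_mul_y hMG))
    have hxG : x * (Gt / x ^ (ρ + 1)) = Gt / x ^ ρ := by
      rw [pow_succ]
      field_simp
    have hmem : ∀ θ ∈ Th O' (uo O' x), θ f * x ^ (-(m + (ρ + 1 : ℕ))) ∈ O' := by
      intro θ hθ
      obtain ⟨α, hα, β, hβ, rfl⟩ := (hth' θ).1 hθ
      rw [hval', hxG]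
      exact O'.add_mem (O'.mul_mem hα hmem1) (O'.mul_mem hβ (Md_div hQ hP.pv hMG))
    have hρ1 : 1 ≤ ρ := by
      by_contra hcon
      have h0 : ρ = 0 := by omega
      subst h0
      obtain ⟨b, hb, ⟨j, hj, hj2⟩, hbeq⟩ := hG
      have hj0 : j = 0 := by omega
      rw [hj0] at hj2
      apply hj2
      have : Gt = b 0 := by
        rw [hbeq]; simp
      rw [← this]
      exact hGm
    have hρc : ρ ≤ c := by
      by_contra hcon
      push Not at hcon
      exact hnot ⟨(hod4 _ _ _ hF (by omega)).1, (hod4 _ _ _ hMG hcon).1⟩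
    obtain ⟨cc, hcc, hcj, hceq⟩ := hG
    have hnotO : ¬ Ox O' x y' (ρ + 1) (Gt / x ^ ρ) := by
      rw [hceq, sum_eq hx0, mul_div_cancel_left₀ _ (pow_ne_zero _ hx0)]
      exact hqp k E htr O O' x y y' ⟨A, hA, hpt⟩ hO' hP hQ hP' ρ cc hcc hcj
    obtain ⟨c'', hc'', hdat⟩ := exists_dat hmem ⟨_, hθ2, by rw [hv2, hxG]; exact hnotO⟩
    obtain ⟨hmm, hcc'⟩ := (hinv k E htr O' x y' f hO' hP').1 _ _ _ _ hdat hD'
    subst hcc'
    refine ⟨hc''.trans hρc, fun h1 => ?_⟩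
    rw [← hmm]
    push_cast
    omega

end Pool.Agent.W193.WD.F1

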